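import Mathlib
import Pool.Agent.N479.RK.Tower

set_option autoImplicit false

/-!
# MP_3aefc9_co: the Ramsey number `r_k(k+1)` for two colours grows as a tower of height `Θ(k)`
-/

namespace Pool.Agent.Results.MP_3aefc9_co.TwoColourTower

open Finset

/-- the tower function, `twr 0 = 1`, `twr 1 = 2`, `twr (i + 1) = 2 ^ twr i` -/
def twr : ℕ → ℕ
  | 0 => 1
  | i + 1 => 2 ^ twr i

/-- Every colouring of the `k`-element subsets of an `n`-element set with two colours (`true` is
red, `false` is blue) has a red complete `k`-graph on `s` vertices or a blue one on `t` vertices. -/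
def Arrow (k s t n : ℕ) : Prop :=
  ∀ χ : {e : Finset (Fin n) // e.card = k} → Bool,
    (∃ S : Finset (Fin n), S.card = s ∧ ∀ e : {e : Finset (Fin n) // e.card = k},
      (e : Finset (Fin n)) ⊆ S → χ e = true) ∨
    (∃ T : Finset (Fin n), T.card = t ∧ ∀ e : {e : Finset (Fin n) // e.card = k},
      (e : Finset (Fin n)) ⊆ T → χ e = false)

/-- the Ramsey number `r_k(s,t)`, the least `n` with `Arrow k s t n` -/
noncomputable def ramsey (k s t : ℕ) : ℕ := sInf {n | Arrow k s t n}

lemma arrow_upper (k : ℕ) : Arrow k (k + 1) (k + 1) (N479.RK.rb (k + 1) k) := by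
  classical
  obtain ⟨n, hn⟩ : ∃ n, n = N479.RK.rb (k + 1) k := ⟨_, rfl⟩
  rw [← hn]
  intro χ
  let χ' : Finset ℕ → Bool := fun e =>
    if h : (univ.filter (fun i : Fin n => (i : ℕ) ∈ e)).card = k then χ ⟨_, h⟩ else true
  obtain ⟨H, hH, hc, c, hcol⟩ := N479.RK.ramsey_upper (k + 1) k χ' (range n) (by
    rw [card_range, hn])
  have hcard : ∀ e : Finset ℕ, e ⊆ range n →
      (univ.filter (fun i : Fin n => (i : ℕ) ∈ e)).card = e.card := by
    intro e he
    have h1 : (univ.filter (fun i : Fin n => (i : ℕ) ∈ e)).map Fin.valEmbedding = e := by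
      ext x
      simp only [mem_map, mem_filter, mem_univ, true_and, Fin.valEmbedding_apply]
      constructor
      · rintro ⟨i, hi, rfl⟩
        exact hi
      · intro hx
        exact ⟨⟨x, mem_range.1 (he hx)⟩, hx, rfl⟩
    conv_rhs => rw [← h1, card_map]
  have key : ∀ e : {e : Finset (Fin n) // e.card = k},
      (e : Finset (Fin n)) ⊆ univ.filter (fun i : Fin n => (i : ℕ) ∈ H) → χ e = c := by
    intro e he
    have h1 : (e : Finset (Fin n)).map Fin.valEmbedding ⊆ H := by
      intro x hx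
      obtain ⟨i, hi, rfl⟩ := mem_map.1 hx
      exact (mem_filter.1 (he hi)).2
    have h2 := hcol _ h1 (by rw [card_map]; exact e.2)
    have h3 : univ.filter (fun i : Fin n =>
        (i : ℕ) ∈ (e : Finset (Fin n)).map Fin.valEmbedding) = (e : Finset (Fin n)) := by
      ext i
      simp only [mem_filter, mem_univ, true_and, mem_map, Fin.valEmbedding_apply]
      constructor
      · rintro ⟨j, hj, hij⟩
        rwa [← Fin.ext hij]
      · intro hi
        exact ⟨i, hi, rfl⟩
    rw [← h2]
    simp only [χ']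
    rw [dif_pos (by rw [h3]; exact e.2)]
    congr 1
    exact Subtype.ext h3.symm
  cases c
  · exact Or.inr ⟨_, by rw [hcard H hH, hc], key⟩
  · exact Or.inl ⟨_, by rw [hcard H hH, hc], key⟩

lemma not_arrow {m N k n : ℕ} (h : N479.RK.Good m N) (hk : m ≤ k) (hn : n ≤ N) :
    ¬ Arrow k (k + 1) (k + 1) n := by
  obtain ⟨χ, hχ⟩ := h
  intro hA
  have key : ∀ c : Bool, ¬ ∃ S : Finset (Fin n), S.card = k + 1 ∧
      ∀ e : {e : Finset (Fin n) // e.card = k}, (e : Finset (Fin n)) ⊆ S →
        χ ((e : Finset (Fin n)).map Fin.valEmbedding) = c := by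
    rintro c ⟨S, hS, hc⟩
    obtain ⟨y, hy, y', hy', hne⟩ := hχ (S.map Fin.valEmbedding) (by
      intro x hx
      obtain ⟨i, -, rfl⟩ := mem_map.1 hx
      have := i.2
      rw [mem_range, Fin.valEmbedding_apply]
      omega) (by rw [card_map]; omega)
    have h1 : ∀ y ∈ S.map Fin.valEmbedding, χ ((S.map Fin.valEmbedding).erase y) = c := by
      intro y hy
      obtain ⟨i, hi, rfl⟩ := mem_map.1 hy
      rw [← map_erase]
      exact hc ⟨S.erase i, by rw [card_erase_of_mem hi]; omega⟩ (erase_subset _ _)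
    exact hne (by rw [h1 y hy, h1 y' hy'])
  rcases hA (fun e => χ ((e : Finset (Fin n)).map Fin.valEmbedding)) with h1 | h1
  · exact key true h1
  · exact key false h1

/-- There are `c > 0` and `K` with `twr ⌈c k⌉ ≤ r_k(k+1,k+1) ≤ twr (5 k)` for all `k ≥ K`. -/
theorem result : ∃ c : ℝ, 0 < c ∧ ∃ K : ℕ, ∀ k : ℕ, K ≤ k →
    twr ⌈c * k⌉₊ ≤ ramsey k (k + 1) (k + 1) ∧ ramsey k (k + 1) (k + 1) ≤ twr (5 * k) := by
  obtain ⟨M, C, hC, hgood⟩ := N479.RK.lower_raw twr rfl (fun _ => rfl)
  have hCR : (0 : ℝ) < C := by exact_mod_cast hC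
  refine ⟨1 / (2 * C), by positivity, 2 * (M + C) + 1, fun k hk => ?_⟩
  have hA := arrow_upper k
  have hne : {n | Arrow k (k + 1) (k + 1) n}.Nonempty := ⟨_, hA⟩
  have hmem : Arrow k (k + 1) (k + 1) (ramsey k (k + 1) (k + 1)) := Nat.sInf_mem hne
  constructor
  · by_contra hlt
    push Not at hlt
    set i := ⌈1 / (2 * (C : ℝ)) * k⌉₊ with hi
    have h1 : (i : ℝ) < 1 / (2 * (C : ℝ)) * k + 1 := Nat.ceil_lt_add_one (by positivity)
    have h2 : (i : ℝ) * C < k / 2 + C := by
      have h3 : (i : ℝ) * C < (1 / (2 * (C : ℝ)) * k + 1) * C := mul_lt_mul_of_pos_right h1 hCR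
      have h4 : (1 / (2 * (C : ℝ)) * k + 1) * C = k / 2 + C := by
        field_simp
      linarith
    have h5 : M + i * C ≤ k := by
      have h6 : ((2 * (M + C) + 1 : ℕ) : ℝ) ≤ (k : ℝ) := by exact_mod_cast hk
      push_cast at h6
      have h7 : ((M + i * C : ℕ) : ℝ) ≤ (k : ℝ) := by
        push_cast
        linarith
      exact_mod_cast h7
    exact not_arrow (hgood i) h5 hlt.le hmem
  · refine (Nat.sInf_le hA).trans ?_
    refine (N479.RK.upper_raw twr rfl (fun _ => rfl) (k + 1) (by omega) k).trans ?_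
    have hmono : Monotone twr := monotone_nat_of_le_succ (fun n => by
      show twr n ≤ 2 ^ twr n
      exact Nat.lt_two_pow_self.le)
    exact hmono (by omega)

end Pool.Agent.Results.MP_3aefc9_co.TwoColourTower
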